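import Mathlib
import Pool.Agent.TH189.Kr9

/-!
# Factors of products of sums of algebraic functions of small degree

Let `Ω` be an algebraic closure of the field `ℂ(x_1, …, x_n)`.  An element of `Ω` is a *small
root* (with parameters `m`, `w`) if it is a root of a monic polynomial
`T ^ d + a_1 T ^ (d - 1) + ⋯ + a_d` with `d ≤ m` and `a_j ∈ ℂ[x]` of degree at most `w j`.  For
instance `√q` is a small root for `m = 2` and `w = 1` if `q` is a polynomial of degree at most `2`,
and the eigenvalues of an `m × m` matrix of polynomials of degree at most `w` are small roots.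

We give explicit integer points, of number polynomial in `n` and `D` for fixed `m` and `w` and
quasi-polynomial if `m` and `w` are at most polylogarithmic in `D`, which hit every nonzero polynomial `f` of degree at most `D` such that `f` divides a nonzero polynomial
which is in `Ω` a product of sums of arbitrarily many small roots with complex coefficients; there
is no restriction on the numbers of the factors and of the summands.  Examples: the norm
`∏ (c_1 √q_1 ± c_2 √q_2 ± ⋯ ± c_r √q_r)` of a sum of square roots, and the determinants of the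
Kronecker sums `∑_i 1 ⊗ ⋯ ⊗ M_i ⊗ ⋯ ⊗ 1` of `r` matrices of size at most `m` of polynomials of
degree at most `w` (whose eigenvalues are the sums of the eigenvalues of the `M_i`), which are
irreducible of unbounded degree in general, and all their factors.

The proof.  Let `F` be a finite set of polynomials as above such that all factors of the product
are combinations of roots of members of `F`.  At a point `x⁰` of the generator with `w m ^ 2` seeds
the roots `θ_i` of the members of `F` stay distinct, and they become power series in `t` along the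
lines `x⁰ + t v`; the Galois group `Γ` permutes these series.  Substitute for `v` the generator
with `s = 2 w m ^ 4` seeds, which does not kill polynomials of degree at most `s`, and let `Γ'` be
the Galois group of the new series.  Invariants of small degree show that `Γ` and `Γ'` have the
same orbits of pairs of roots.  Let `R` and `R'` be the spaces of the vectors `c` with
`∑ c_i θ_i = 0` before and after the substitution; the averaged projection onto the `Γ'`-stable
space `R'` is a matrix which is constant on the orbits of pairs, so `R'` is `Γ`-stable.  Suppose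
that `R' ≠ R`.  Then a `Γ`-stable complement of `R` in `R'` contains a vector `v ≠ 0` which is fixed
by the stabiliser of a root.  The element `∑ v_i θ_i` has at most `m` conjugates, their product is
a polynomial of degree at most `w m` which vanishes after the substitution, so it is zero and `v`
is in `R`, a contradiction.  So the generator with `w m ^ 2 + s` seeds does not kill any nonzero
sum of roots, nor a product of such sums, nor the factors of such a product.
-/

set_option autoImplicit false

namespace Pool.Agent.Results.MP_3c5c20_lc.AlgebraicSums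

open MvPolynomial

/-- An algebraic closure of the field of rational functions in `n` variables. -/
abbrev Om (n : ℕ) : Type := AlgebraicClosure (FractionRing (MvPolynomial (Fin n) ℂ))

/-- `u` is a root of a monic polynomial of degree `d ≤ m` whose coefficient at `T ^ j` is a
polynomial in `x` of degree at most `w (d - j)`. -/
def SmallRoot {n : ℕ} (m w : ℕ) (u : Om n) : Prop :=
  ∃ χ : Polynomial (MvPolynomial (Fin n) ℂ), χ.Monic ∧ χ.natDegree ≤ m ∧
    (∀ j, (χ.coeff j).totalDegree ≤ w * (χ.natDegree - j)) ∧
    χ.eval₂ (algebraMap (MvPolynomial (Fin n) ℂ) (Om n)) u = 0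

/-- `g` is in `Ω` a product of finite sums `∑ c_i u_i` with complex numbers `c_i` and small
roots `u_i`. -/
def ProductOfSums {n : ℕ} (m w : ℕ) (g : MvPolynomial (Fin n) ℂ) : Prop :=
  ∃ A : Multiset (Om n), (∀ φ ∈ A, φ ∈ Submodule.span ℂ {u : Om n | SmallRoot m w u}) ∧
    algebraMap (MvPolynomial (Fin n) ℂ) (Om n) g = A.prod

/-- The number of seeds: `w (m ^ 2 + 2 m ^ 4)`. -/
def seeds (m w : ℕ) : ℕ := w * (m ^ 2 + 2 * m ^ 4)

/-- The integer point with coordinates `∑ l, y_l ∏_{k ≠ i} (z_l - k)`, `i = 0, …, n - 1`. -/
def point (n t : ℕ) (y z : Fin t → ℕ) : Fin n → ℤ :=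
  fun i => ∑ l : Fin t, (y l : ℤ) * ∏ k ∈ Finset.univ.erase i, ((z l : ℤ) - (k.val : ℤ))

/-- The points with `t` seeds `(y_l, z_l)`, where `0 ≤ y_l ≤ D` and `0 ≤ z_l ≤ n D`. -/
def points (n t D : ℕ) : Finset (Fin n → ℤ) :=
  ((Fintype.piFinset fun _ : Fin t => Finset.range (D + 1)) ×ˢ
    (Fintype.piFinset fun _ : Fin t => Finset.range (n * D + 1))).image
    fun yz => point n t yz.1 yz.2

theorem points_eq (n t D : ℕ) : points n t D = H530R2.hitSet n t D := rfl

theorem exists_family {n : ℕ} (m w : ℕ) (A : Multiset (Om n))
    (hA : ∀ φ ∈ A, φ ∈ Submodule.span ℂ {u : Om n | SmallRoot m w u}) :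
    ∃ F : Finset (Polynomial (MvPolynomial (Fin n) ℂ)), (∀ χ ∈ F, TH189.Kr.Lin m w χ) ∧
      ∀ φ ∈ A, φ ∈ Submodule.span ℂ (TH189.Kr.RS F) := by
  classical
  induction A using Multiset.induction_on with
  | empty => exact ⟨∅, by simp, by simp⟩
  | cons φ A ih =>
    obtain ⟨F, hF, hFA⟩ := ih fun ψ hψ => hA ψ (Multiset.mem_cons_of_mem hψ)
    obtain ⟨T, hT, hφ⟩ := Submodule.mem_span_finite_of_mem_span
      (hA φ (Multiset.mem_cons_self _ _))
    have h1 : ∀ u : T, ∃ χ : Polynomial (MvPolynomial (Fin n) ℂ), TH189.Kr.Lin m w χ ∧
        χ.eval₂ (algebraMap (MvPolynomial (Fin n) ℂ) (Om n)) u = 0 := by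
      intro u
      obtain ⟨χ, h1, h2, h3, h4⟩ := hT u.2
      exact ⟨χ, TH189.Kr.Lin.of_coeff χ h1 h2 h3, h4⟩
    choose χ hχ hχ0 using h1
    refine ⟨F ∪ Finset.univ.image χ, fun ψ hψ => ?_, fun ψ hψ => ?_⟩
    · rcases Finset.mem_union.1 hψ with h | h
      · exact hF ψ h
      · obtain ⟨u, -, rfl⟩ := Finset.mem_image.1 h
        exact hχ u
    · rcases Multiset.mem_cons.1 hψ with rfl | h
      · refine Submodule.span_mono ?_ hφ
        intro u hu
        exact ⟨χ ⟨u, hu⟩, Finset.mem_union_right _
          (Finset.mem_image_of_mem _ (Finset.mem_univ _)), hχ0 ⟨u, hu⟩⟩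
      · refine Submodule.span_mono ?_ (hFA ψ h)
        rintro v ⟨χ', hχ', hv⟩
        exact ⟨χ', Finset.mem_union_left _ hχ', hv⟩

/-- **Factors of products of sums of algebraic functions of small degree.**  Fix `n, m, w, D` with
`m ≥ 1`.  The explicit set `points n (seeds m w) D` has at most
`((D + 1) (n D + 1)) ^ seeds m w` elements.  Every nonzero polynomial `f` of degree at most `D` in
`n` variables which divides a nonzero polynomial `g` such that `g` is a product of sums of small
roots does not vanish at one of these points. -/
theorem result (n m w D : ℕ) (hm : 1 ≤ m) :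
    (points n (seeds m w) D).card ≤ ((D + 1) * (n * D + 1)) ^ (seeds m w) ∧
    (∀ p ∈ points n (seeds m w) D, ∀ i,
      |p i| ≤ (seeds m w * D * (n * D + n) ^ (n - 1) : ℕ)) ∧
    ∀ g : MvPolynomial (Fin n) ℂ, g ≠ 0 → ProductOfSums m w g →
      ∀ f : MvPolynomial (Fin n) ℂ, f ∣ g → f.totalDegree ≤ D →
        ∃ p ∈ points n (seeds m w) D, eval (fun i => (p i : ℂ)) f ≠ 0 := by
  refine ⟨?_, ?_, ?_⟩
  · rw [points_eq]
    exact H530R2.hitSet_card _ _ _
  · intro p hp i
    rw [points_eq] at hp
    exact H530R2.hitSet_bound _ _ _ p hp i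
  rintro g hg0 ⟨A, hA, hg⟩ f hfg hD
  obtain ⟨F, hF, hFA⟩ := exists_family m w A hA
  have h2 := TH189.Kr.main3 (fun i : Fin n => ((i.val : ℕ) : ℂ)) (H530R2.nodes_injective n) m w hm
    F hF A hFA g hg hg0 f hfg
  exact H530R2.exists_hit n (seeds m w) D f hD h2

end Pool.Agent.Results.MP_3c5c20_lc.AlgebraicSums
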