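import Mathlib
import Pool.Agent.TH22.Wp.Main

/-!
# Factors of products of sums of few high powers

MP_3c5c20_lc asks for deterministic identity testing of arithmetic expressions.  We give hitting
sets of polynomial size for the polynomials `f` that divide a product of nonzero polynomials `P_i`,
where every `P_i` is a sum of at most `c d_i` constant multiples of `d_i`-th powers of affine forms.
Here `c` is a constant; the numbers `d_i` and the numbers of factors, of terms and of variables are
arbitrary, and only the degree of `f` enters into the size of the set.  So expressions of any form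
for such polynomials are tested in polynomial time.

The coordinates of the test points are `x_m = ∑ j < K, y_j binom(m, j) z ^ (m - j)`, where
`K = 2 c ^ 2 + 4 c + 2`, that is, `x` is a combination of the derivatives of order `< K` of the
moment curve at `z`.  By the rank bound for power identities (if `∑ i < t, c_i ℓ_i ^ d = 0` with
nonzero `c_i` and pairwise non-proportional linear forms `ℓ_i` that span a space of dimension at
least `2 m - 1`, then `t ≥ m d + 1 - m (m - 3) / 2`) the restriction of `P_i` to the osculating
space of dimension `K` at a general point of the curve does not vanish.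
-/

set_option autoImplicit false

open MvPolynomial

namespace Pool.Agent.Results.MP_3c5c20_lc.FactorsOfPowerSums

variable {F : Type} [Field F]

/-- `f` is a sum of `s` constant multiples of `d`-th powers of affine forms. -/
def IsSumOfPowers {n : ℕ} (s d : ℕ) (f : MvPolynomial (Fin n) F) : Prop :=
  ∃ (a b : Fin s → F) (l : Fin s → Fin n → F),
    f = ∑ i, C (a i) * (C (b i) + ∑ m, C (l i m) * X m) ^ d

/-- The test point with the seeds `z` and `y_0, …, y_{K-1}`. -/
def point (n K z : ℕ) (y : Fin K → ℕ) : Fin n → ℕ :=
  fun m => ∑ j : Fin K, y j * ((m : ℕ).choose j * z ^ ((m : ℕ) - j))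

/-- The test points with `z ≤ n D` and `y_j ≤ D`. -/
def points (n K D : ℕ) : Finset (Fin n → ℕ) :=
  (Finset.range (n * D + 1) ×ˢ (Fintype.piFinset fun _ : Fin K => Finset.range (D + 1))).image
    fun p => point n K p.1 p.2

/-- The number of the seeds `y_j`. -/
def seeds (c : ℕ) : ℕ := 2 * c ^ 2 + 4 * c + 2

theorem card_points (n K D : ℕ) :
    (points n K D).card ≤ (n * D + 1) * (D + 1) ^ K := by
  refine Finset.card_image_le.trans ?_
  rw [Finset.card_product, Finset.card_range, Fintype.card_piFinset]
  simp

theorem points_le (n K D : ℕ) (x : Fin n → ℕ) (hx : x ∈ points n K D)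
    (m : Fin n) : x m ≤ K * D * (2 * (n * D + 1)) ^ n := by
  obtain ⟨⟨z, y⟩, hp, rfl⟩ := Finset.mem_image.1 hx
  rw [Finset.mem_product, Fintype.mem_piFinset, Finset.mem_range] at hp
  exact TH22.Wp.natCoord_le y (fun j => Nat.lt_succ_iff.1 (Finset.mem_range.1 (hp.2 j)))
    (by omega) m

/-- **Polynomial-size hitting sets for factors of products of sums of few high powers.** -/
theorem result {F : Type} [Field F] [CharZero F] (n c D : ℕ) :
    (∀ (ι : Type) (J : Finset ι) (P : ι → MvPolynomial (Fin n) F) (s d : ι → ℕ),
      (∀ i ∈ J, P i ≠ 0 ∧ 1 ≤ d i ∧ s i ≤ c * d i ∧ IsSumOfPowers (s i) (d i) (P i)) →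
      ∀ f : MvPolynomial (Fin n) F, f ∣ ∏ i ∈ J, P i → f.totalDegree ≤ D →
        ∃ x ∈ points n (seeds c) D, eval (fun m => ((x m : ℕ) : F)) f ≠ 0) ∧
    (points n (seeds c) D).card ≤ (n * D + 1) * (D + 1) ^ (seeds c) ∧
    ∀ x ∈ points n (seeds c) D, ∀ m, x m ≤ seeds c * D * (2 * (n * D + 1)) ^ n := by
  refine ⟨?_, card_points _ _ _, fun x hx m => points_le _ _ _ x hx m⟩
  intro ι J P s d hP f hf hdeg
  obtain ⟨z, hz, y, hy, hne⟩ := TH22.Wp.hit_divisor (K := seeds c) (D := D)
    (by unfold seeds; omega) J P s d (fun i hi => (hP i hi).1) (fun i hi => (hP i hi).2.2.2)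
    (fun i hi => (hP i hi).2.1) (fun i hi => by
      obtain ⟨-, hd, hs, -⟩ := hP i hi
      unfold seeds
      rcases Nat.eq_zero_or_pos c with hc | hc
      · subst hc
        left; omega
      rcases Nat.lt_or_ge (d i + 3) (2 * c) with hlt | hge
      · left
        have : c * d i ≤ c * (2 * c) := Nat.mul_le_mul_left _ (by omega)
        nlinarith
      · right
        exact ⟨2 * c, by omega, hge, by nlinarith, by nlinarith⟩) f hf hdeg
  exact ⟨point n _ z y, Finset.mem_image.2 ⟨(z, y), Finset.mem_product.2 ⟨hz, hy⟩, rfl⟩, hne⟩

end Pool.Agent.Results.MP_3c5c20_lc.FactorsOfPowerSums
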