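import Mathlib
import Pool.Agent.TH483.NetLay
import Pool.Agent.TH483.Bound

/-!
# Quasi-polynomial hitting sets for expressions whose parts share few variables

MP_3c5c20_lc asks for deterministic identity testing of arithmetic expressions. We give explicit
hitting sets of quasi-polynomial size for the expressions of any size and depth in which, for every
subexpression, at most `k` variables occur both inside and outside of it. There is no restriction on
the number of the occurrences of a variable. More generally, the theorem treats networks of width
`w`: the value of every part of the expression is a vector of `w` polynomials, the gates are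
arbitrary maps of degree at most one in the values of each argument, and the leaves are arbitrary
polynomials in at most `k` variables. Networks of width one are expressions with the gates
`c₀ + c₁ a + c₂ b + c₃ a b`; networks whose trees are paths are branching programs of width `w`, in
which at most `k` variables are live at any time. The expressions also may be multiplied, and the
theorem holds for all factors of products.

A network of this kind is reordered such that the smaller of two arguments always comes first. Then
each cut of the list of the leaves is crossed by at most `k (⌊log₂ s⌋ + 1)` variables, and the value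
splits into few products along each interval of the list (`TH483.lay_gate`). The explicit set of
points is that of Agrawal, Gurjar, Korwar and Saxena for read-once oblivious programs in an unknown
order (basis isolating weights); a self-contained proof is in `TH483.exists_hit`.
-/

set_option autoImplicit false

namespace Pool.Agent.Results.MP_3c5c20_lc.FewSharedVariables

open MvPolynomial Pool.Agent.TH483

variable {K : Type} [Field K]

/-- the bound for the rank with respect to an interval -/
def width (w k s δ : ℕ) : ℕ :=
  (w + 1) ^ (2 * Nat.log 2 s + 3) * (s * δ + 1) ^ (2 * (k * (Nat.log 2 s + 1)) + 2 * k)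

/-- the explicit set of points -/
noncomputable def tests (n w k s δ d : ℕ) : Finset (Fin n → ℤ) :=
  hit n (s * δ) (width w k s δ) d (Nat.clog 2 n) d

/-- the bound for the size of the set is `bound n w k s δ d ^ (2 ⌈log₂ n⌉ + 1)` -/
def bound (n w k s δ d : ℕ) : ℕ := 2 * ((n + 1) * (d + 1)) ^ 2 *
  (w + 1) ^ (12 * (Nat.log 2 s + 1)) * (s * δ + 1) ^ (16 * k * (Nat.log 2 s + 1) + 1)

theorem one_le_width (w k s δ : ℕ) : 1 ≤ width w k s δ := by
  unfold width
  exact Nat.one_le_iff_ne_zero.2 (by positivity)

theorem le_bound (n w k s δ d : ℕ) : ((n + 1) * (d + 1)) ^ 2 *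
    (2 * (s * δ + 1) * width w k s δ ^ 4) ≤ bound n w k s δ d := by
  unfold bound width
  set L := Nat.log 2 s with hL
  set N := s * δ + 1 with hN
  have e1 : ((n + 1) * (d + 1)) ^ 2 * (2 * N *
      ((w + 1) ^ (2 * L + 3) * N ^ (2 * (k * (L + 1)) + 2 * k)) ^ 4) =
      2 * ((n + 1) * (d + 1)) ^ 2 * (w + 1) ^ (8 * L + 12) *
        N ^ (8 * (k * (L + 1)) + 8 * k + 1) := by
    ring
  rw [e1]
  refine Nat.mul_le_mul (Nat.mul_le_mul_left _ (Nat.pow_le_pow_right (Nat.succ_pos w) (by omega)))
    (Nat.pow_le_pow_right (by omega) ?_)
  have e2 : 16 * k * (L + 1) = 8 * (k * (L + 1)) + 8 * (k * (L + 1)) := by ring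
  have e3 : k * 1 ≤ k * (L + 1) := Nat.mul_le_mul_left _ (by omega)
  omega

/-- **Expressions whose parts share few variables.** The explicit set `tests n w k s δ d ⊆ ℤ^n`, of
quasi-polynomial size for polylogarithmic `k` and `w`, hits every polynomial of total degree at most
`d` which divides a product of nonzero values of networks of width `w` with at most `s` leaves,
where the leaves are polynomials of degree at most `δ` in at most `k` variables, and for every part
of the network at most `k` variables occur both inside and outside of it. -/
theorem result [CharZero K] (n w k s δ d : ℕ) :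
    (tests n w k s δ d).card ≤ bound n w k s δ d ^ (2 * Nat.clog 2 n + 1) ∧
    (∀ p ∈ tests n w k s δ d, ∀ i, |p i| ≤
      ((bound n w k s δ d ^ (bound n w k s δ d * Nat.clog 2 n + 1) : ℕ) : ℤ)) ∧
    ∀ (f : MvPolynomial (Fin n) K) (J : ℕ) (E : Fin J → Net n w K) (c : Fin J → Fin w),
      (∀ j, (E j).Thin k ∅ ∧ (E j).Deg δ ∧ (E j).size ≤ s) → (∀ j, (E j).val (c j) ≠ 0) →
      f ∣ ∏ j, (E j).val (c j) → f.totalDegree ≤ d →
      ∃ p ∈ tests n w k s δ d, MvPolynomial.eval (fun i => (p i : K)) f ≠ 0 := by
  have hb := le_bound n w k s δ d
  refine ⟨hit_card' n d _ (one_le_width w k s δ) hb,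
    fun p hp i => hit_bound n d _ (one_le_width w k s δ) hb p hp i, ?_⟩
  intro f J E c hE hne hdvd hd
  refine exists_hit' (f := fun j => (E j).val (c j)) hne (fun j => ?_) (one_le_width w k s δ)
    (Nat.le_pow_clog (by norm_num) _) (fun j => ?_) hdvd hd
  · exact (Net.ordRk (hE j).1 (hE j).2.1 (c j)).2.trans (Nat.mul_le_mul_right _ (hE j).2.2)
  · refine ordRk_mono (Net.ordRk (hE j).1 (hE j).2.1 (c j)).1 ?_
    unfold width
    have hlog : Nat.log 2 (E j).size ≤ Nat.log 2 s := Nat.log_mono_right (hE j).2.2
    refine Nat.mul_le_mul (Nat.pow_le_pow_right (Nat.succ_pos w) (by omega)) ?_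
    refine (Nat.pow_le_pow_left (Nat.add_le_add_right (Nat.mul_le_mul_right _ (hE j).2.2) 1) _).trans
      (Nat.pow_le_pow_right (Nat.succ_pos _) ?_)
    have := Nat.mul_le_mul_left k (Nat.add_le_add_right hlog 1)
    omega

end Pool.Agent.Results.MP_3c5c20_lc.FewSharedVariables
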