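import Mathlib
import Pool.Agent.TH668.Thin.T1

/-!
# Explicit hitting sets for thin sums of formulas in unknown coordinates

We give explicit hitting sets for compositions `F ∘ φ`, where `φ` is a tuple of independent affine
forms in `n` variables (orbits), or more generally a tuple of polynomials whose Jacobian matrix has
a left inverse up to a factor of the class, and `F` is a sum of *any number* of polynomials, each of
which is a polynomial in `w` values of formulas, and the sets of variables of which are thin: up to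
`w` exceptional variables, any `r` variables occur together in at most `κ` summands (so there may be
about `κ k ^ r` of them for `k` variables). The formulas have any size and depth, and each of them
contains every variable in at most `w` leaves; the leaves are computed by programs of width `w` (for
instance oblivious algebraic branching programs) which read every variable at most `w` times, in any
order; programs and formulas may be nested to constant depth. No multilinearity is assumed. The
explicit set has `((d+1)(nd+1))^(m(t+1))` points, where `m` is a constant, `d` is the degree and `t`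
is the rank of the formulas, that is their Strahler number when only product gates count. The rank
is at most the logarithm of the number of leaves; hence the size is quasi-polynomial always, and it
is polynomial for formulas of bounded rank. An example of rank one are the sums
`∑_i ∏_{j ∈ S_i} p_{ij}(φ_j)` of products of univariate polynomials over all sets of a
Nisan-Wigderson design (`|S_i ∩ S_{i'}| < r`).

The proof: the derivatives in `r` different variables of such a sum are polynomials in the jets of
boundedly many formulas (`Pool.Agent.TH668.Thin.jetsO`), evaluated on a chain of primes which loses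
one step under differentiation (`Pool.Agent.W943`, `Pool.Agent.TH668.Orf`). If all of them vanish,
then every monomial has few variables.
-/

namespace Pool.Agent.Results.MP_3c5c20_lc.OrbitsOfThinSums

open MvPolynomial

/-- Formulas in `n` variables: the leaves are polynomials, a gate computes
`c₀ + c₁ a + c₂ b + c₃ a b` from the values `a`, `b` of its arguments (in particular `a + b`,
`a - b` and `a b`). -/
inductive Formula (n : ℕ) : Type
  | leaf (g : MvPolynomial (Fin n) ℂ) : Formula n
  | gate (c₀ c₁ c₂ c₃ : ℂ) (a b : Formula n) : Formula n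

variable {n : ℕ}

/-- the polynomial computed by a formula -/
noncomputable def Formula.value : Formula n → MvPolynomial (Fin n) ℂ
  | .leaf g => g
  | .gate c₀ c₁ c₂ c₃ a b => C c₀ + C c₁ * a.value + C c₂ * b.value + C c₃ * (a.value * b.value)

open Classical in
/-- the number of leaves in which the variable `x` occurs -/
noncomputable def Formula.reads : Formula n → Fin n → ℕ
  | .leaf g, x => if x ∈ g.vars then 1 else 0
  | .gate _ _ _ _ a b, x => a.reads x + b.reads x

/-- the set of the polynomials at the leaves -/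
def Formula.leaves : Formula n → Set (MvPolynomial (Fin n) ℂ)
  | .leaf g => {g}
  | .gate _ _ _ _ a b => a.leaves ∪ b.leaves

/-- the number of leaves -/
def Formula.size : Formula n → ℕ
  | .leaf _ => 1
  | .gate _ _ _ _ a b => a.size + b.size

open Classical in
/-- The rank of a formula: `0` for leaves. At a gate with `c₃ = 0` it is the maximum of the ranks
of the arguments. At a gate with `c₃ ≠ 0` it is this maximum if the ranks of the arguments are
different, and it is larger by one if they are equal. -/
noncomputable def Formula.rank : Formula n → ℕ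
  | .leaf _ => 0
  | .gate _ _ _ c₃ a b =>
    if c₃ ≠ 0 ∧ a.rank = b.rank then a.rank + 1 else max a.rank b.rank

/-- `f` has rank at most `r` in the variable `k`: it is a sum of `r` products of a univariate
polynomial in `x_k` and a polynomial without `x_k`. Polynomials of degree less than `r` in `x_k`
have this property. -/
def RankLe (k : Fin n) (r : ℕ) (f : MvPolynomial (Fin n) ℂ) : Prop :=
  ∃ (b : Fin r → Polynomial ℂ) (c : Fin r → MvPolynomial (Fin n) ℂ), (∀ a, k ∉ (c a).vars) ∧
    f = ∑ a, Polynomial.aeval (X k) (b a) * c a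

/-- The contents of `u` registers after `b` steps. The registers start with the constants `c₀`;
step `b` replaces the contents of register `j` by an arbitrary polynomial `upd b j` in the old
contents of the registers and the `v` arguments `arg b 0, …, arg b (v-1)` of this step. -/
noncomputable def contents {u v : ℕ} (c₀ : Fin u → ℂ)
    (arg : ℕ → Fin v → MvPolynomial (Fin n) ℂ)
    (upd : ℕ → Fin u → MvPolynomial (Fin u ⊕ Fin v) ℂ) : ℕ → Fin u → MvPolynomial (Fin n) ℂ
  | 0 => fun j => C (c₀ j)
  | b + 1 => fun j => aeval (Sum.elim (contents c₀ arg upd b) (arg b)) (upd b j)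

/-- `Comp w D f`: the polynomial `f` is computed with width, number of reads and rank at most `w`
and nesting depth `D`.
* `base` (depth `0`): sums of `w` products of `w` univariate polynomials of arbitrary degree and a
  polynomial of total degree at most `w`.
* `linear` (depth `D + 1`): the bilinear form `u ⬝ M_0 M_1 ⋯ M_{R-1} ⬝ v` of any length `R`, where
  the entries of the `w × w` matrices `M_t` have depth `D` and every variable occurs in at most `w`
  of these matrices.
* `program` (depth `D + 1`): a polynomial `P` in the final contents of at most `w` registers of a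
  program with arbitrary polynomial updates and at most `w` arguments of depth `D` in every step.
  Up to a set `S` of at most `w` exceptional variables, every variable occurs in the arguments of
  at most `w` steps; the contents and the result have rank at most `w` in every variable.
* `formula` (depth `D + 1`): the value of a formula of any size with leaves of depth `D`, in which
  every variable occurs in at most `w` leaves and whose rank is at most `w`. -/
inductive Comp (w : ℕ) : ℕ → MvPolynomial (Fin n) ℂ → Prop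
  | base (i : Fin w → Fin w → Fin n) (p : Fin w → Fin w → Polynomial ℂ)
      (g : Fin w → MvPolynomial (Fin n) ℂ) (hg : ∀ a, (g a).totalDegree ≤ w) :
      Comp w 0 (∑ a, (∏ b, Polynomial.aeval (X (i a b)) (p a b)) * g a)
  | up {D : ℕ} {f : MvPolynomial (Fin n) ℂ} : Comp w D f → Comp w (D + 1) f
  | linear {D : ℕ} (R : ℕ) (M : Fin R → Matrix (Fin w) (Fin w) (MvPolynomial (Fin n) ℂ))
      (u v : Fin w → ℂ) (hM : ∀ t i j, Comp w D (M t i j))
      (hR : ∀ k, (Finset.univ.filter fun t => ∃ i j, k ∈ (M t i j).vars).card ≤ w) :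
      Comp w (D + 1) (∑ i, ∑ j, C (u i) * (List.ofFn M).prod i j * C (v j))
  | program {D u v : ℕ} (c₀ : Fin u → ℂ) (arg : ℕ → Fin v → MvPolynomial (Fin n) ℂ)
      (upd : ℕ → Fin u → MvPolynomial (Fin u ⊕ Fin v) ℂ) (R : ℕ) (P : MvPolynomial (Fin u) ℂ)
      (S : Finset (Fin n)) : u ≤ w → v ≤ w → S.card ≤ w →
      (∀ k, k ∉ S → ((Finset.range R).filter fun b => ∃ i, k ∈ (arg b i).vars).card ≤ w) →
      (∀ b i, Comp w D (arg b i)) →
      (∀ t ≤ R, ∀ j k, RankLe k w (contents c₀ arg upd t j)) →
      (∀ k, RankLe k w (aeval (contents c₀ arg upd R) P)) →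
      Comp w (D + 1) (aeval (contents c₀ arg upd R) P)
  | formula {D : ℕ} (E : Formula n) : (∀ g, g ∈ E.leaves → Comp w D g) →
      (∀ x, E.reads x ≤ w) → E.rank ≤ w → Comp w (D + 1) E.value

/-- Thin sums: sums of any number `N` of polynomials in `w` values of formulas of any size and of
rank at most `t`, with leaves of depth `D`, in which every variable occurs in at most `w` leaves. Up
to a set `S` of at most `w` exceptional variables, any `r` variables occur together in at most `κ`
summands. -/
def ThinSum (w D κ r t : ℕ) (f : MvPolynomial (Fin n) ℂ) : Prop :=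
  ∃ (N : ℕ) (E : Fin N → Fin w → Formula n) (P : Fin N → MvPolynomial (Fin w) ℂ)
    (S : Finset (Fin n)),
    (∀ i q, (∀ g, g ∈ (E i q).leaves → Comp w D g) ∧ (∀ x, (E i q).reads x ≤ w) ∧
      (E i q).rank ≤ t) ∧ S.card ≤ w ∧
    (∀ A : Finset (Fin n), A.card = r → Disjoint A S →
      {i | A ⊆ (aeval (fun q => (E i q).value) (P i)).vars}.ncard ≤ κ) ∧
    f = ∑ i, aeval (fun q => (E i q).value) (P i)

/-- `Cls m w D κ r n s f`: the polynomial `f` in `n` variables is in the class with `s` seed pairs.
* `thin`: nonzero thin sums of rank at most `t`, with `m (t + 1)` seed pairs.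
* The class contains the nonzero constants and it is closed under products and factors.
* `primitive`: polynomials with a derivative along a vector field in the class.
* `comp`: compositions `F(φ_0, …, φ_{k-1})` of members `F` with tuples `φ` of polynomials whose
  Jacobian matrix has a left inverse over the polynomial ring up to a factor `Δ` in the class (for
  example linearly independent affine forms, with `Δ = 1`, which does not need any seeds). -/
inductive Cls (m w D κ r : ℕ) : (n : ℕ) → ℕ → MvPolynomial (Fin n) ℂ → Prop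
  | thin {n t : ℕ} {F : MvPolynomial (Fin n) ℂ} (hF : ThinSum w D κ r t F) (h0 : F ≠ 0) :
      Cls m w D κ r n (m * (t + 1)) F
  | const {n : ℕ} {c : ℂ} (hc : c ≠ 0) : Cls m w D κ r n 0 (C c)
  | mono {n s s' : ℕ} {f : MvPolynomial (Fin n) ℂ} (h : Cls m w D κ r n s f) (hs : s ≤ s') :
      Cls m w D κ r n s' f
  | mul {n s : ℕ} {f g : MvPolynomial (Fin n) ℂ} (hf : Cls m w D κ r n s f)
      (hg : Cls m w D κ r n s g) : Cls m w D κ r n s (f * g)
  | factor {n s : ℕ} {f g : MvPolynomial (Fin n) ℂ} (hg : Cls m w D κ r n s g) (h : f ∣ g) :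
      Cls m w D κ r n s f
  | primitive {n s : ℕ} {f : MvPolynomial (Fin n) ℂ} (V : Fin n → MvPolynomial (Fin n) ℂ)
      (h : Cls m w D κ r n s (∑ l, V l * pderiv l f)) : Cls m w D κ r n (s + 1) f
  | comp {n k s s' : ℕ} {F : MvPolynomial (Fin k) ℂ} (hF : Cls m w D κ r k s' F)
      (φ : Fin k → MvPolynomial (Fin n) ℂ) (E : Fin k → Fin n → MvPolynomial (Fin n) ℂ)
      {Δ : MvPolynomial (Fin n) ℂ}
      (hE : ∀ i j, ∑ l, E i l * pderiv l (φ j) = if i = j then Δ else 0)
      (hΔ : Cls m w D κ r n s Δ) : Cls m w D κ r n (s + s') (aeval φ F)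

/-- The sum of the products `∏_{j ∈ S_i} p_{ij}(x_j)` of univariate polynomials. -/
noncomputable def productSum {N k : ℕ} (S : Fin N → Finset (Fin k))
    (p : Fin N → Fin k → Polynomial ℂ) : MvPolynomial (Fin k) ℂ :=
  ∑ i, ∏ j ∈ S i, Polynomial.aeval (X j : MvPolynomial (Fin k) ℂ) (p i j)

/-- The oblivious branching program `u ⬝ M_0(x_{a 0}) M_1(x_{a 1}) ⋯ M_{l-1}(x_{a (l-1)}) ⬝ v` of
width `w`, with matrices of univariate polynomials, which reads the variables in the order
`a 0, a 1, …, a (l-1)`. -/
noncomputable def oblivious {n w l : ℕ} (a : Fin l → Fin n)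
    (M : Fin l → Matrix (Fin w) (Fin w) (Polynomial ℂ)) (u v : Fin w → ℂ) :
    MvPolynomial (Fin n) ℂ :=
  ∑ i, ∑ j, C (u i) * (List.ofFn fun t : Fin l =>
    (M t).map (Polynomial.aeval (X (a t) : MvPolynomial (Fin n) ℂ))).prod i j * C (v j)

/-- The point with seeds `y, z ∈ ℕ^s`: its `i`-th coordinate is
`∑_l y_l ∏_{k ≠ i} (z_l - k)` (the Shpilka–Volkovich generator with nodes `0, …, n-1`). -/
def point (n s : ℕ) (y z : Fin s → ℕ) : Fin n → ℤ :=
  fun i => ∑ l : Fin s, (y l : ℤ) * ∏ k ∈ Finset.univ.erase i, ((z l : ℤ) - (k.val : ℤ))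

/-- The explicit set of all points with seeds `y ∈ {0,…,d}^s`, `z ∈ {0,…,nd}^s`. -/
def points (n s d : ℕ) : Finset (Fin n → ℤ) :=
  ((Fintype.piFinset fun _ : Fin s => Finset.range (d + 1)) ×ˢ
    (Fintype.piFinset fun _ : Fin s => Finset.range (n * d + 1))).image
    fun yz => point n s yz.1 yz.2

open Pool.Agent.W943 Pool.Agent.H530R2 Pool.Agent.TH668.Orf Pool.Agent.TH668.Thin

/-- the families of classes -/
noncomputable def upO : ℕ → FamO ℂ
  | 0 => baseO ℂ
  | D + 1 => nextT (upO D).next

/-- the parameter of the classes -/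
noncomputable def bdO (w : ℕ) : ℕ → ℕ
  | 0 => w
  | D + 1 =>
    let A := bdO w D + w + w * w + (w * w * (upO D).bd (bdO w D) + 1) ^ w + 1 +
      (upO D).bd (bdO w D)
    A + rb A A

/-- the parameter of the programs -/
noncomputable def bdP (w D : ℕ) : ℕ :=
  bdO w D + w + w * w + (w * w * (upO D).bd (bdO w D) + 1) ^ w + 1 + (upO D).bd (bdO w D)

theorem bdO_succ (w D : ℕ) : bdO w (D + 1) = bdP w D + rb (bdP w D) (bdP w D) := rfl

theorem RankLe.bdl {n : ℕ} {k : Fin n} {r : ℕ} {f : MvPolynomial (Fin n) ℂ} (h : RankLe k r f) :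
    Bdl k r f := by
  obtain ⟨b, c, hc, hf⟩ := h
  refine ⟨r, le_rfl, b, c, fun a => ?_, hf⟩
  rw [mem_supported]
  intro x hx
  show x ≠ k
  rintro rfl
  exact hc a (Finset.mem_coe.1 hx)

theorem rowOf_eq {n w : ℕ} (u : Fin w → ℂ)
    (M : ℕ → Matrix (Fin w) (Fin w) (MvPolynomial (Fin n) ℂ)) (R : ℕ) (j : Fin w) :
    rowOf u M R j = ∑ i, C (u i) * (List.ofFn fun t : Fin R => M t).prod i j := by
  induction R generalizing j with
  | zero =>
    simp [rowOf, Matrix.one_apply]
  | succ R ih =>
    simp only [rowOf]
    rw [List.ofFn_succ', List.concat_eq_append, List.prod_append, List.prod_singleton]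
    simp only [Matrix.mul_apply, Fin.val_last, Fin.val_castSucc, Finset.mul_sum]
    rw [Finset.sum_comm]
    apply Finset.sum_congr rfl
    intro l _
    rw [ih l, Finset.sum_mul]
    apply Finset.sum_congr rfl
    intro i _
    ring

/-- translation to the formulas of `Pool.Agent.H530R2` -/
noncomputable def toTr : Formula n → Tr ℂ n
  | .leaf g => .leaf g
  | .gate c₀ c₁ c₂ c₃ a b =>
    .gate (C c₀ + C c₁ * X 0 + C c₂ * X 1 + C c₃ * (X 0 * X 1)) (toTr a) (toTr b)

theorem toTr_val (E : Formula n) : (toTr E).val = E.value := by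
  induction E with
  | leaf g => rfl
  | gate c₀ c₁ c₂ c₃ a b iha ihb =>
    simp only [toTr, Tr.val, Formula.value, map_add, map_mul, algHom_C, aeval_X, iha, ihb]
    rfl

theorem toTr_occ (E : Formula n) (x : Fin n) : (toTr E).occ x = E.reads x := by
  induction E with
  | leaf g => simp only [toTr, Tr.occ, Formula.reads]
  | gate c₀ c₁ c₂ c₃ a b iha ihb => simp only [toTr, Tr.occ, Formula.reads, iha, ihb]

theorem toTr_ml (E : Formula n) : (toTr E).ML := by
  induction E with
  | leaf g => trivial
  | gate c₀ c₁ c₂ c₃ a b iha ihb => exact ⟨iha, ihb, c₀, c₁, c₂, c₃, rfl⟩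

theorem toTr_rk (E : Formula n) : (toTr E).rk = E.rank := by
  classical
  induction E with
  | leaf g => rfl
  | gate c₀ c₁ c₂ c₃ a b iha ihb =>
    simp only [toTr, Tr.rk, Formula.rank, cpr_affine, iha, ihb, stf]
    by_cases h : c₃ = 0
    · rw [if_pos h, if_neg (fun hc => hc.1 h)]
    · rw [if_neg h]
      by_cases h' : a.rank = b.rank
      · rw [if_pos h', if_pos ⟨h, h'⟩]
      · rw [if_neg h', if_neg (fun hc => h' hc.2)]

theorem toTr_lv {L : Set (MvPolynomial (Fin n) ℂ)} (E : Formula n)
    (h : ∀ g, g ∈ E.leaves → g ∈ L) : (toTr E).Lv L := by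
  induction E with
  | leaf g => exact h g rfl
  | gate c₀ c₁ c₂ c₃ a b iha ihb =>
    exact ⟨iha fun g hg => h g (Or.inl hg), ihb fun g hg => h g (Or.inr hg)⟩

theorem two_pow_rank (E : Formula n) : 2 ^ E.rank ≤ E.size := by
  classical
  induction E with
  | leaf g => exact le_rfl
  | gate c₀ c₁ c₂ c₃ a b iha ihb =>
    simp only [Formula.rank, Formula.size]
    split_ifs with h
    · rw [pow_succ]
      have h1 := h.2
      rw [← h1] at ihb
      omega
    · rcases le_total a.rank b.rank with h1 | h1
      · rw [max_eq_right h1]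
        omega
      · rw [max_eq_left h1]
        omega

theorem toTr_gd {L : Set (MvPolynomial (Fin n) ℂ)} {K : ℕ} (E : Formula n)
    (h : ∀ g, g ∈ E.leaves → g ∈ L) (hK : ∀ x, E.reads x ≤ K) : Gd L K (toTr E) :=
  ⟨toTr_ml E, toTr_lv E h, fun i => by rw [toTr_occ]; exact hK i⟩

/-- programs -/
theorem next_up {D W : ℕ} (hW : 1 ≤ W) {f : MvPolynomial (Fin n) ℂ}
    (hf : f ∈ (upO D).next.K n W) : f ∈ (upO (D + 1)).K n W :=
  OutT.ofK le_rfl hW le_rfl hf

theorem comp_mem {n w D : ℕ} {f : MvPolynomial (Fin n) ℂ} (h : Comp w D f) :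
    f ∈ (upO D).K n (bdO w D) := by
  classical
  have hP1 : ∀ D, 1 ≤ bdP w D := fun D => by unfold bdP; omega
  have hPO : ∀ D, bdP w D ≤ bdO w (D + 1) := fun D => by rw [bdO_succ]; omega
  induction h with
  | base i p g hg =>
    show SP _ _ _ _
    refine ⟨Fin w, inferInstance, fun a => ∏ b, Polynomial.aeval (X (i a b)) (p a b), g, ?_,
      fun a => ?_, hg, rfl⟩
    · rw [Fintype.card_fin]; exact le_rfl
    · refine ⟨List.ofFn fun b => (i a b, p a b), ?_, ?_⟩
      · rw [List.length_ofFn]; exact le_rfl
      · rw [List.map_ofFn, List.prod_ofFn]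
        rfl
  | @up D f _ ih =>
    exact (upO (D + 1)).mono (hPO D) (next_up (hP1 D)
      ((upO D).toNext (by unfold bdP; omega) (hP1 D) (by unfold bdP; omega) ih))
  | @linear D R M u v hM hR ih =>
    set M' : ℕ → Matrix (Fin w) (Fin w) (MvPolynomial (Fin n) ℂ) :=
      fun t => if h : t < R then M ⟨t, h⟩ else 0 with hM'
    have hMM : ∀ t : Fin R, M' t = M t := fun t => by simp [hM', t.isLt]
    have h1 := linear_mem (upO D) (W := bdO w D) (k := w) u v M' R (fun t ht l j => by
      have := hMM ⟨t, ht⟩
      simp only at this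
      rw [this]
      exact ih _ _ _) (fun x => by
      refine le_trans ?_ (hR x)
      rw [← Finset.card_map (⟨Fin.val, Fin.val_injective⟩ : Fin R ↪ ℕ)]
      apply Finset.card_le_card
      intro t ht
      obtain ⟨ht1, l, j, hlj⟩ := Finset.mem_filter.1 ht
      rw [Finset.mem_range] at ht1
      refine Finset.mem_map.2 ⟨⟨t, ht1⟩, Finset.mem_filter.2 ⟨Finset.mem_univ _, l, j, ?_⟩, rfl⟩
      rwa [← hMM ⟨t, ht1⟩])
    have h2 : ∑ j, rowOf u M' R j * C (v j) =
        ∑ i, ∑ j, C (u i) * (List.ofFn M).prod i j * C (v j) := by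
      rw [Finset.sum_comm]
      apply Finset.sum_congr rfl
      intro j _
      rw [rowOf_eq, Finset.sum_mul]
      simp only [hMM]
    rw [h2] at h1
    refine (upO (D + 1)).mono (hPO D) (next_up (hP1 D) ?_)
    exact (upO D).next.mono (by unfold bdP; omega) h1
  | @program D u v c₀ arg upd R P S hu hv hS hocc _ hrk hrkf ih =>
    refine (upO (D + 1)).mono (hPO D) (next_up (hP1 D) ?_)
    set B : ℕ → Finset (Fin n) := fun t => Finset.univ.biUnion fun i => (arg t i).vars with hB
    have hreg : RegO (upO D) B (bdO w D + (upO D).c0) (fun b j => contents c₀ arg upd b j)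
        (fun b i => arg b i) := by
      refine ⟨fun i => ⟨c₀ i, rfl⟩,
        fun b i => (upO D).mono (Nat.le_add_right _ _) (ih b i), ?_, fun b j => ?_⟩
      · intro b i
        rw [mem_supported]
        exact_mod_cast Finset.subset_biUnion_of_mem (fun i => (arg b i).vars) (Finset.mem_univ i)
      · have h1 : contents c₀ arg upd (b + 1) j =
          aeval (Sum.elim (contents c₀ arg upd b) (arg b)) (upd b j) := rfl
        show contents c₀ arg upd (b + 1) j ∈ _
        rw [h1, ← Set.Sum.elim_range, Algebra.adjoin_range_eq_range_aeval]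
        exact ⟨upd b j, rfl⟩
    refine OutO.ofReg (hreg.trunc (Nat.le_add_left _ _) R) ?_ ?_ ?_ ?_ ⟨S, ?_, ?_⟩ (R := R) ?_ ?_
    · intro t j x _
      exact (hrk (min t R) (min_le_right _ _) j x).bdl.mono (by unfold bdP; omega)
    · unfold bdP; omega
    · rw [Fintype.card_fin]; unfold bdP; omega
    · rw [Fintype.card_fin]; unfold bdP; omega
    · unfold bdP; omega
    · intro k hk t
      refine ((cnt_trunc B R t k).trans ?_).trans (show w ≤ bdP w D by unfold bdP; omega)
      refine le_trans ?_ (hocc k hk)
      unfold cnt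
      apply Finset.card_le_card
      intro t' ht'
      obtain ⟨h1, h2⟩ := Finset.mem_filter.1 ht'
      obtain ⟨i, _, hi⟩ := Finset.mem_biUnion.1 h2
      exact Finset.mem_filter.2 ⟨h1, i, hi⟩
    · show aeval (contents c₀ arg upd R) P ∈ Algebra.adjoin ℂ
        (Set.range fun j => contents c₀ arg upd (min R R) j)
      rw [min_self]
      have h1 := (Algebra.adjoin_range_eq_range_aeval ℂ (contents c₀ arg upd R)).ge
      exact h1 ⟨P, rfl⟩
    · intro x _
      exact (hrkf x).bdl.mono (by unfold bdP; omega)
  | @formula D E _ hocc hrk ih =>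
    rw [← toTr_val]
    have hw : w ≤ bdP w D := by unfold bdP; omega
    have hG : Gd ((upO D).next.K n (bdP w D)) (bdP w D) (toTr E) :=
      toTr_gd E (fun g hg => (upO D).toNext (by unfold bdP; omega) (hP1 D)
        (by unfold bdP; omega) (ih g hg)) fun x => (hocc x).trans hw
    refine OutT.ofVal (𝔎 := (upO D).next) (hP1 D) hG ?_ (hPO D) ?_
    · rw [toTr_rk]
      exact hrk.trans hw
    · rw [bdO_succ]
      exact Nat.le_add_left _ _

theorem thin_notMem (w D κ r : ℕ) : ∃ m : ℕ, ∀ (n t : ℕ) (F : MvPolynomial (Fin n) ℂ),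
    ThinSum w D κ r t F → F ≠ 0 → ∀ V : DChain ℂ n, F ∉ V.I (m * (t + 1)) := by
  obtain ⟨m, hm⟩ := thinO (upO D) w (bdO w D) w κ r w
  refine ⟨m, ?_⟩
  rintro n t F ⟨N, E, P, S, hE, hS, hthin, rfl⟩ h0 V
  refine hm n V t (Fin N) inferInstance (fun i q => toTr (E i q)) _ S
    (fun i q => toTr_gd _ (fun g hg => comp_mem ((hE i q).1 g hg)) (hE i q).2.1)
    (fun i q => by rw [toTr_rk]; exact (hE i q).2.2) (fun i => ?_) hS hthin h0
  have h1 : (fun q => (toTr (E i q)).val) = fun q => (E i q).value := by
    funext q
    exact toTr_val _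
  rw [h1, Algebra.adjoin_range_eq_range_aeval]
  exact ⟨P i, rfl⟩

/-- The polynomials of the class are not in the primes of the corresponding level. -/
theorem Cls.notMem {m w D κ r : ℕ} (hm : ∀ (n t : ℕ) (F : MvPolynomial (Fin n) ℂ),
    ThinSum w D κ r t F → F ≠ 0 → ∀ V : DChain ℂ n, F ∉ V.I (m * (t + 1)))
    {n s : ℕ} {f : MvPolynomial (Fin n) ℂ} (h : Cls m w D κ r n s f) :
    ∀ V : DChain ℂ n, f ∉ V.I s := by
  induction h with
  | thin hF h0 => exact hm _ _ _ hF h0
  | const hc => exact fun V hmem => hc (V.const_mem hmem)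
  | mono h hs ih => exact fun V hc => ih V (V.mono hs hc)
  | mul hf hg ihf ihg =>
    intro V hc
    rcases (V.prime _).mem_or_mem hc with h | h
    · exact ihf V h
    · exact ihg V h
  | factor hg h ih => exact fun V hc => ih V (Ideal.mem_of_dvd _ h hc)
  | primitive D h ih => exact fun V hc => ih V (V.vf_mem D hc)
  | comp hF φ E hE hΔ ihF ihΔ =>
    intro V hc
    exact ihF (V.pull φ E _ hE _ (ihΔ V)) hc

/-- Compositions with linearly independent affine forms do not need more seeds. -/
theorem affine {m w D κ r n k s : ℕ} {F : MvPolynomial (Fin k) ℂ} (hF : Cls m w D κ r k s F)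
    (A : Fin k → Fin n → ℂ) (b : Fin k → ℂ) (hA : LinearIndependent ℂ A) :
    Cls m w D κ r n s (aeval (fun j => ∑ l, C (A j l) * X l + C (b j)) F) := by
  classical
  have hd : ∀ i : Fin k, ∃ d : Fin n → ℂ, ∀ j, A j ⬝ᵥ d = if i = j then 1 else 0 :=
    fun i => Pool.Agent.H530R2.exists_dual A hA _
  choose d hd using hd
  have h := Cls.comp (n := n) hF (fun j => ∑ l, C (A j l) * X l + C (b j))
    (fun i l => C (d i l)) (Δ := C 1) (s := 0) ?_ (Cls.const one_ne_zero)
  · rwa [zero_add] at h
  · intro i j
    have h1 : ∀ l, pderiv l (∑ l', C (A j l') * X l' + C (b j) : MvPolynomial (Fin n) ℂ) =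
        C (A j l) := by
      intro l
      rw [map_add, pderiv_C, add_zero, map_sum, Finset.sum_eq_single l]
      · rw [pderiv_C_mul, pderiv_X_self, mul_one]
      · intro l' _ hl'
        rw [pderiv_C_mul, pderiv_X_of_ne hl', mul_zero]
      · intro h; exact absurd (Finset.mem_univ _) h
    simp only [h1, ← map_mul, ← map_sum]
    have h2 : ∑ l, d i l * A j l = if i = j then 1 else 0 := by
      rw [← hd i j, dotProduct]
      exact Finset.sum_congr rfl fun l _ => mul_comm _ _
    rw [h2]
    split_ifs
    · rfl
    · rw [map_zero]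

/-- oblivious programs have depth `1` -/
theorem oblivious_comp {n w l : ℕ} (a : Fin l → Fin n)
    (ha : ∀ i, (Finset.univ.filter fun t => a t = i).card ≤ w)
    (M : Fin l → Matrix (Fin w) (Fin w) (Polynomial ℂ)) (u v : Fin w → ℂ) :
    Comp w 1 (oblivious a M u v) := by
  classical
  unfold oblivious
  refine Comp.linear l _ u v (fun t i j => ?_) (fun k => ?_)
  · have hw : 0 < w := Nat.pos_of_ne_zero fun h => by subst h; exact i.elim0
    have key := Comp.base (n := n) (w := w) (fun _ _ => a t)
      (fun c e => if c.val = 0 ∧ e.val = 0 then M t i j else 1)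
      (fun c => if c.val = 0 then 1 else 0) (fun c => by split_ifs <;> simp)
    have h1 : (∑ c : Fin w, (∏ e : Fin w, Polynomial.aeval (X (a t) : MvPolynomial (Fin n) ℂ)
        (if c.val = 0 ∧ e.val = 0 then M t i j else 1)) *
        (if c.val = 0 then (1 : MvPolynomial (Fin n) ℂ) else 0)) =
        ((M t).map (Polynomial.aeval (X (a t) : MvPolynomial (Fin n) ℂ))) i j := by
      rw [Finset.sum_eq_single (⟨0, hw⟩ : Fin w)]
      · rw [Finset.prod_eq_single (⟨0, hw⟩ : Fin w)]
        · simp
        · intro e _ he
          have : ¬ e.val = 0 := fun h => he (Fin.ext h)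
          simp [this]
        · intro h; exact absurd (Finset.mem_univ _) h
      · intro c _ hc
        have : ¬ c.val = 0 := fun h => hc (Fin.ext h)
        simp [this]
      · intro h; exact absurd (Finset.mem_univ _) h
    rw [← h1]
    exact key
  · refine le_trans (Finset.card_le_card ?_) (ha k)
    intro t ht
    rw [Finset.mem_filter] at ht ⊢
    obtain ⟨_, i, j, hij⟩ := ht
    refine ⟨Finset.mem_univ _, ?_⟩
    have h2 : (Polynomial.aeval (X (a t) : MvPolynomial (Fin n) ℂ)) (M t i j) ∈
        supported ℂ ({a t} : Set (Fin n)) := by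
      have h3 : (X (a t) : MvPolynomial (Fin n) ℂ) ∈ supported ℂ ({a t} : Set (Fin n)) :=
        X_mem_supported.2 rfl
      exact (Algebra.adjoin_le (S := supported ℂ ({a t} : Set (Fin n))) (by simpa using h3))
        (Polynomial.aeval_mem_adjoin_singleton ℂ _)
    have h4 := mem_supported.1 h2 (Finset.mem_coe.2 hij)
    exact (Set.mem_singleton_iff.1 h4).symm

theorem Comp.lift {w : ℕ} {f : MvPolynomial (Fin n) ℂ} (h : Comp w 0 f) (D : ℕ) : Comp w D f := by
  induction D with
  | zero => exact h
  | succ D ih => exact Comp.up ih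

/-- univariate polynomials -/
theorem comp_uni {w D : ℕ} (hw : 1 ≤ w) (j : Fin n) (p : Polynomial ℂ) :
    Comp w D (Polynomial.aeval (X j : MvPolynomial (Fin n) ℂ) p) := by
  classical
  apply Comp.lift
  have key := Comp.base (n := n) (w := w) (fun _ _ => j)
    (fun c e => if c.val = 0 ∧ e.val = 0 then p else 1)
    (fun c => if c.val = 0 then 1 else 0) (fun c => by split_ifs <;> simp)
  have h1 : (∑ c : Fin w, (∏ e : Fin w, Polynomial.aeval (X j : MvPolynomial (Fin n) ℂ)
      (if c.val = 0 ∧ e.val = 0 then p else 1)) *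
      (if c.val = 0 then (1 : MvPolynomial (Fin n) ℂ) else 0)) =
      Polynomial.aeval (X j : MvPolynomial (Fin n) ℂ) p := by
    rw [Finset.sum_eq_single (⟨0, hw⟩ : Fin w)]
    · rw [Finset.prod_eq_single (⟨0, hw⟩ : Fin w)]
      · simp
      · intro e _ he
        have : ¬ e.val = 0 := fun h => he (Fin.ext h)
        simp [this]
      · intro h; exact absurd (Finset.mem_univ _) h
    · intro c _ hc
      have : ¬ c.val = 0 := fun h => hc (Fin.ext h)
      simp [this]
    · intro h; exact absurd (Finset.mem_univ _) h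
  rw [h1] at key
  exact key

theorem vars_uni (j : Fin n) (p : Polynomial ℂ) :
    (Polynomial.aeval (X j : MvPolynomial (Fin n) ℂ) p).vars ⊆ {j} := by
  have h2 : (Polynomial.aeval (X j : MvPolynomial (Fin n) ℂ)) p ∈
      supported ℂ ({j} : Set (Fin n)) := by
    have h3 : (X j : MvPolynomial (Fin n) ℂ) ∈ supported ℂ ({j} : Set (Fin n)) :=
      X_mem_supported.2 rfl
    exact (Algebra.adjoin_le (S := supported ℂ ({j} : Set (Fin n))) (by simpa using h3))
      (Polynomial.aeval_mem_adjoin_singleton ℂ _)
  have h4 := mem_supported.1 h2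
  intro x hx
  exact Finset.mem_singleton.2 (Set.mem_singleton_iff.1 (h4 (Finset.mem_coe.2 hx)))

/-- products of univariate polynomials in different variables are formulas of rank one -/
theorem prodFormula {w D : ℕ} (hw : 1 ≤ w) (hn : 0 < n) (p : Fin n → Polynomial ℂ)
    (s : Finset (Fin n)) :
    ∃ E : Formula n, E.value = ∏ j ∈ s, Polynomial.aeval (X j : MvPolynomial (Fin n) ℂ) (p j) ∧
      (∀ g, g ∈ E.leaves → Comp w D g) ∧ (∀ x, E.reads x ≤ if x ∈ s then 1 else 0) ∧
      E.rank ≤ 1 := by
  classical
  induction s using Finset.induction_on with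
  | empty =>
    refine ⟨.leaf 1, rfl, ?_, fun x => ?_, Nat.zero_le _⟩
    · rintro g rfl
      have h1 := comp_uni (D := D) hw (⟨0, hn⟩ : Fin n) 1
      rwa [map_one] at h1
    · show (if x ∈ (1 : MvPolynomial (Fin n) ℂ).vars then 1 else 0) ≤ _
      rw [vars_one]
  | insert a s ha ih =>
    obtain ⟨E, hE1, hE2, hE3, hE4⟩ := ih
    refine ⟨.gate 0 0 0 1 (.leaf (Polynomial.aeval (X a) (p a))) E, ?_, ?_, fun x => ?_, ?_⟩
    · rw [Finset.prod_insert ha, ← hE1]
      simp [Formula.value]
    · rintro g (rfl | hg)
      · exact comp_uni hw a (p a)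
      · exact hE2 g hg
    · have h1 : (Formula.leaf (Polynomial.aeval (X a : MvPolynomial (Fin n) ℂ) (p a))).reads x ≤
          if x = a then 1 else 0 := by
        simp only [Formula.reads]
        split_ifs with h2 h3
        · exact le_rfl
        · exact absurd (Finset.mem_singleton.1 (vars_uni a (p a) h2)) h3
        · exact Nat.zero_le _
        · exact Nat.zero_le _
      refine (Nat.add_le_add h1 (hE3 x)).trans ?_
      by_cases hx : x = a
      · subst hx
        simp [ha]
      · simp [hx, Finset.mem_insert]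
    · have h5 : ∀ a : ℕ, a ≤ 1 → (if (1 : ℂ) ≠ 0 ∧ 0 = a then 0 + 1 else max 0 a) ≤ 1 := by
        intro a ha
        split_ifs
        · exact le_rfl
        · simpa using ha
      exact h5 _ hE4

theorem vars_prod_uni (s : Finset (Fin n)) (p : Fin n → Polynomial ℂ) :
    (∏ j ∈ s, Polynomial.aeval (X j : MvPolynomial (Fin n) ℂ) (p j)).vars ⊆ s := by
  classical
  induction s using Finset.induction_on with
  | empty => simp
  | insert a s ha ih =>
    rw [Finset.prod_insert ha]
    refine (vars_mul _ _).trans (Finset.union_subset ?_ ?_)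
    · exact (vars_uni a (p a)).trans (by simp)
    · exact ih.trans (Finset.subset_insert _ _)

/-- sums of products of univariate polynomials over the sets of a design -/
theorem design {w D κ r N k : ℕ} (hw : 1 ≤ w) (hk : 0 < k) (S : Finset (Fin k)) (hS : S.card ≤ w)
    (T : Fin N → Finset (Fin k)) (p : Fin N → Fin k → Polynomial ℂ)
    (hT : ∀ A : Finset (Fin k), A.card = r → Disjoint A S → {i | A ⊆ T i}.ncard ≤ κ) :
    ThinSum w D κ r 1 (productSum T p) := by
  classical
  choose E hE1 hE2 hE3 hE4 using fun i => prodFormula (w := w) (D := D) hw hk (p i) (T i)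
  have hval : ∀ i, aeval (fun _ : Fin w => (E i).value)
      (X (⟨0, hw⟩ : Fin w) : MvPolynomial (Fin w) ℂ) = (E i).value := fun i => aeval_X _ _
  refine ⟨N, fun i _ => E i, fun _ => X ⟨0, hw⟩, S, fun i _ => ⟨hE2 i, fun x => ?_, hE4 i⟩, hS,
    ?_, ?_⟩
  · refine (hE3 i x).trans ?_
    split_ifs
    · exact hw
    · exact Nat.zero_le _
  · intro A hA hAS
    refine (Set.ncard_le_ncard ?_ (Set.toFinite _)).trans (hT A hA hAS)
    intro i hi
    have h1 : A ⊆ (aeval (fun _ : Fin w => (E i).value)
      (X (⟨0, hw⟩ : Fin w) : MvPolynomial (Fin w) ℂ)).vars := hi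
    rw [hval, hE1] at h1
    exact h1.trans (vars_prod_uni _ _)
  · unfold productSum
    refine Finset.sum_congr rfl fun i _ => ?_
    rw [hval, hE1]

/-- designs -/
theorem design_sets {r N k : ℕ} (T : Fin N → Finset (Fin k))
    (hT : ∀ i i', i ≠ i' → (T i ∩ T i').card < r) (A : Finset (Fin k)) (hA : A.card = r) :
    {i | A ⊆ T i}.ncard ≤ 1 := by
  classical
  rw [Set.ncard_le_one_iff (Set.toFinite _)]
  intro i i' hi hi'
  by_contra hne
  have h1 := Finset.card_le_card (Finset.subset_inter (show A ⊆ T i from hi)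
    (show A ⊆ T i' from hi'))
  have h2 := hT i i' hne
  omega

theorem result (w D κ r : ℕ) : ∃ m : ℕ,
    -- the explicit set hits the class
    (∀ n s d : ℕ,
      (points n s d).card ≤ ((d + 1) * (n * d + 1)) ^ s ∧
      (∀ P ∈ points n s d, ∀ i, |P i| ≤ ((s * d * (n * d + n) ^ (n - 1) : ℕ) : ℤ)) ∧
      (∀ f : MvPolynomial (Fin n) ℂ, Cls m w D κ r n s f → f.totalDegree ≤ d →
        ∃ P ∈ points n s d, eval (fun i => (P i : ℂ)) f ≠ 0)) ∧
    -- thin sums in unknown coordinates
    (∀ (n k t : ℕ) (F : MvPolynomial (Fin k) ℂ) (A : Fin k → Fin n → ℂ) (b : Fin k → ℂ),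
      ThinSum w D κ r t F → F ≠ 0 → LinearIndependent ℂ A →
        Cls m w D κ r n (m * (t + 1)) (aeval (fun j => ∑ l, C (A j l) * X l + C (b j)) F)) ∧
    -- the class is closed under compositions with independent affine forms
    (∀ (n k s : ℕ) (F : MvPolynomial (Fin k) ℂ) (A : Fin k → Fin n → ℂ) (b : Fin k → ℂ),
      Cls m w D κ r k s F → LinearIndependent ℂ A →
        Cls m w D κ r n s (aeval (fun j => ∑ l, C (A j l) * X l + C (b j)) F)) ∧
    -- the rank is at most the logarithm of the number of leaves
    (∀ (k : ℕ) (E : Formula k), 2 ^ E.rank ≤ E.size) ∧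
    -- sums of products over designs have rank one
    (∀ (N k : ℕ) (T : Fin N → Finset (Fin k)) (p : Fin N → Fin k → Polynomial ℂ),
      1 ≤ w → 0 < k → 1 ≤ κ → (∀ i i', i ≠ i' → (T i ∩ T i').card < r) →
        ThinSum w D κ r 1 (productSum T p)) ∧
    -- oblivious programs of constant width are allowed at the leaves
    (∀ (k l : ℕ) (a : Fin l → Fin k), (∀ i, (Finset.univ.filter fun t => a t = i).card ≤ w) →
      ∀ (M : Fin l → Matrix (Fin w) (Fin w) (Polynomial ℂ)) (u v : Fin w → ℂ),
        Comp w 1 (oblivious a M u v)) := by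
  classical
  obtain ⟨m, hm⟩ := thin_notMem w D κ r
  refine ⟨m, ?_, ?_, fun n k s F A b hF hA => affine hF A b hA, fun k E => two_pow_rank E, ?_, ?_⟩
  · intro n s d
    refine ⟨Pool.Agent.H530R2.hitSet_card n _ d,
      fun p hp i => Pool.Agent.H530R2.hitSet_bound n _ d p hp i, ?_⟩
    intro f hf hd
    exact Pool.Agent.H530R2.exists_hit n s d f hd (hf.notMem hm
      (Pool.Agent.W943.genChain (fun i : Fin n => ((i.val : ℕ) : ℂ))
        (Pool.Agent.H530R2.nodes_injective n)))
  · intro n k t F A b hF h0 hA
    exact affine (Cls.thin hF h0) A b hA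
  · intro N k T p hw hk hκ hT
    exact design hw hk ∅ (by simp) T p fun A hA _ => (design_sets T hT A hA).trans hκ
  · intro k l a ha M u v
    exact oblivious_comp a ha M u v

end Pool.Agent.Results.MP_3c5c20_lc.OrbitsOfThinSums
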